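import Mathlib

/-!
# Commuting graphs of semigroups with bounded rank and unbounded girth
-/

set_option autoImplicit false

namespace Pool.Agent.Results.MP_eff4ce_al.BoundedRankUnboundedGirth

section Seq

/-- The odd part. -/
def od (n : ℕ) : ℕ := n / 2 ^ padicValNat 2 n

theorem val_eq (t m : ℕ) (hm : m % 2 = 1) : padicValNat 2 (2 ^ t * m) = t := by
  rw [padicValNat.mul (by positivity) (by omega), padicValNat.prime_pow,
    padicValNat.eq_zero_of_not_dvd (by omega), add_zero]

theorem od_eq (t m : ℕ) (hm : m % 2 = 1) : od (2 ^ t * m) = m := by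
  unfold od
  rw [val_eq t m hm, Nat.mul_div_cancel_left _ (by positivity)]

/-- The letters. -/
def sq (n : ℕ) : Bool × Bool × Bool :=
  (decide (n % 2 = 1), decide (padicValNat 2 n % 2 = 1), decide (od n % 4 = 3))

theorem sq_eq {i j : ℕ} (h : sq i = sq j) : (i % 2 = 1 ↔ j % 2 = 1) ∧
    (padicValNat 2 i % 2 = 1 ↔ padicValNat 2 j % 2 = 1) ∧ (od i % 4 = 3 ↔ od j % 4 = 3) := by
  unfold sq at h
  simp only [Prod.mk.injEq, decide_eq_decide] at h
  exact h

theorem four_dvd {t x y : ℕ} (hx : 0 < x) (hx2 : x % 2 = 0) (hy : y % 2 = 1)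
    (h : padicValNat 2 (2 ^ t * x) % 2 = 1 ↔ padicValNat 2 (2 ^ t * y) % 2 = 1) : x % 4 = 0 := by
  by_contra hne
  obtain ⟨z, rfl⟩ : ∃ z, x = 2 * z := ⟨x / 2, by omega⟩
  have hz : z % 2 = 1 := by omega
  have h1 : 2 ^ t * (2 * z) = 2 ^ (t + 1) * z := by ring
  rw [h1, val_eq _ _ hz, val_eq _ _ hy] at h
  omega

theorem sq_free (i L : ℕ) (hi : 1 ≤ i) (hL : 1 ≤ L)
    (h : ∀ j, i ≤ j → j < i + L → sq j = sq (j + L)) : False := by
  obtain ⟨t, L', hodd, hLt⟩ := Nat.exists_eq_two_pow_mul_odd (n := L) (by omega)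
  have hodd' : L' % 2 = 1 := Nat.odd_iff.1 hodd
  have ceil : ∀ s : ℕ, ∃ c, 1 ≤ c ∧ i ≤ 2 ^ s * c ∧ 2 ^ s * c < i + 2 ^ s := by
    intro s
    have hp : 0 < 2 ^ s := by positivity
    refine ⟨(i + 2 ^ s - 1) / 2 ^ s, ?_, ?_, ?_⟩
    · rw [Nat.le_div_iff_mul_le hp]
      omega
    · have := Nat.lt_div_mul_add (a := i + 2 ^ s - 1) hp
      rw [mul_comm] at this
      omega
    · have := Nat.div_mul_le_self (i + 2 ^ s - 1) (2 ^ s)
      rw [mul_comm] at this
      omega
  rcases Nat.lt_or_ge L' 2 with h1 | h1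
  · have hL1 : L' = 1 := by omega
    subst hL1
    rw [mul_one] at hLt
    rcases Nat.eq_zero_or_pos t with h0 | h0
    · subst h0
      rw [pow_zero] at hLt
      have := (sq_eq (h i le_rfl (by omega))).1
      omega
    · obtain ⟨t', rfl⟩ : ∃ t', t = t' + 1 := ⟨t - 1, by omega⟩
      obtain ⟨c, hc1, hc2, hc3⟩ := ceil t'
      have hpow : 2 ^ (t' + 1) = 2 * 2 ^ t' := by ring
      have key : ∀ d, d % 2 = 1 → i ≤ 2 ^ t' * d → 2 ^ t' * d < i + L → False := by
        intro d hd h2 h3
        have h4 := (sq_eq (h _ h2 h3)).2.2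
        have h5 : 2 ^ t' * d + L = 2 ^ t' * (d + 2) := by rw [hLt, hpow]; ring
        rw [h5, od_eq _ _ hd, od_eq _ _ (by omega)] at h4
        omega
      rcases Nat.mod_two_eq_zero_or_one c with h2 | h2
      · refine key (c + 1) (by omega) ?_ ?_
        · rw [mul_add]; omega
        · rw [mul_add, hLt, hpow]; omega
      · refine key c h2 hc2 ?_
        rw [hLt, hpow]; omega
  · obtain ⟨c, hc1, hc2, hc3⟩ := ceil t
    have hL3 : 3 * 2 ^ t ≤ L := by
      rw [hLt, mul_comm]
      exact Nat.mul_le_mul_left _ (by omega)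
    have e1 := (sq_eq (h (2 ^ t * c) hc2 (by omega))).2.1
    have e2 := (sq_eq (h (2 ^ t * (c + 2)) (by rw [mul_add]; omega) (by rw [mul_add]; omega))).2.1
    have h5 : 2 ^ t * c + L = 2 ^ t * (c + L') := by rw [hLt]; ring
    have h6 : 2 ^ t * (c + 2) + L = 2 ^ t * (c + 2 + L') := by rw [hLt]; ring
    rw [h5] at e1
    rw [h6] at e2
    rcases Nat.mod_two_eq_zero_or_one c with h2 | h2
    · have f1 := four_dvd (by omega) h2 (by omega) e1
      have f2 := four_dvd (by omega) (by omega) (by omega) e2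
      omega
    · have f1 := four_dvd (by omega) (by omega) (by omega) e1.symm
      have f2 := four_dvd (by omega) (by omega) (by omega) e2.symm
      omega

/-- The infinite word. -/
def wd : ℕ → Option (Bool × Bool × Bool)
  | 0 => none
  | n + 1 => some (sq (n + 1))

/-- The finite word of length `2 n`. -/
def WW (n : ℕ) : List (Option (Bool × Bool × Bool)) := (List.range (2 * n)).map wd

theorem WW_get (n k : ℕ) : (WW n)[k]? = if k < 2 * n then some (wd k) else none := by
  unfold WW
  rw [List.getElem?_map]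
  split_ifs with h
  · rw [List.getElem?_range h]; rfl
  · rw [List.getElem?_eq_none (by simpa using h)]; rfl

theorem WW_len (n : ℕ) : (WW n).length = 2 * n := by simp [WW]

theorem WW_sqfree (n : ℕ) (r : List (Option (Bool × Bool × Bool))) (hr : r ≠ []) :
    ¬ (r ++ r) <:+: WW n := by
  rintro ⟨s, t, hst⟩
  have hlen : 1 ≤ r.length := List.length_pos_iff.2 hr
  have h1 : ∀ j < r.length, (WW n)[s.length + j]? = r[j]? := by
    intro j hj
    rw [← hst, List.append_assoc, List.getElem?_append_right (by omega)]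
    rw [List.append_assoc, List.getElem?_append_left (by omega)]
    congr 1
    omega
  have h2 : ∀ j < r.length, (WW n)[s.length + r.length + j]? = r[j]? := by
    intro j hj
    rw [← hst, List.append_assoc, List.getElem?_append_right (by omega)]
    rw [List.append_assoc, List.getElem?_append_right (by omega)]
    rw [List.getElem?_append_left (by omega)]
    congr 1
    omega
  have hn : s.length + r.length + r.length ≤ 2 * n := by
    rw [← WW_len n, ← hst]
    simp
    omega
  have h3 : ∀ j < r.length, wd (s.length + j) = wd (s.length + r.length + j) := by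
    intro j hj
    have a := h1 j hj
    have b := h2 j hj
    rw [WW_get, if_pos (by omega)] at a b
    rw [← a] at b
    exact (Option.some_injective _ b).symm
  rcases Nat.eq_zero_or_pos s.length with h0 | h0
  · have := h3 0 (by omega)
    rw [h0] at this
    obtain ⟨q, hq⟩ : ∃ q, r.length = q + 1 := ⟨r.length - 1, by omega⟩
    simp only [zero_add, add_zero, hq] at this
    exact absurd this (by simp [wd])
  · refine sq_free s.length r.length h0 hlen (fun j hj hj' => ?_)
    have := h3 (j - s.length) (by omega)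
    have e1 : s.length + (j - s.length) = (j - 1) + 1 := by omega
    have e2 : s.length + r.length + (j - s.length) = (j + r.length - 1) + 1 := by omega
    rw [e1, e2] at this
    have := Option.some_injective _ this
    have e3 : j - 1 + 1 = j := by omega
    have e4 : j + r.length - 1 + 1 = j + r.length := by omega
    rwa [e3, e4] at this

theorem WW_first (n : ℕ) (v u : List (Option (Bool × Bool × Bool))) (hv : v ≠ []) :
    ¬ (v ++ none :: u) <:+: WW n := by
  rintro ⟨s, t, hst⟩
  have hlen : 1 ≤ v.length := List.length_pos_iff.2 hv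
  have h1 : (WW n)[s.length + v.length]? = some none := by
    rw [← hst, List.append_assoc, List.getElem?_append_right (by omega)]
    rw [List.append_assoc, List.getElem?_append_right (by omega)]
    simp
  rw [WW_get] at h1
  split_ifs at h1 with h
  obtain ⟨q, hq⟩ : ∃ q, s.length + v.length = q + 1 := ⟨s.length + v.length - 1, by omega⟩
  rw [hq] at h1
  exact absurd (Option.some_injective _ h1) (by simp [wd])

theorem WW_head (n : ℕ) (s : List (Option (Bool × Bool × Bool))) (hs : s ≠ [])
    (h : s <+: WW n) : ∃ s', s = none :: s' := by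
  obtain ⟨a, s', rfl⟩ := List.exists_cons_of_ne_nil hs
  obtain ⟨t, ht⟩ := h
  have h1 : (WW n)[0]? = some a := by rw [← ht]; rfl
  rw [WW_get] at h1
  split_ifs at h1 with h2
  have := Option.some_injective _ h1
  exact ⟨s', by rw [← this]; rfl⟩

end Seq

section Abs

variable {A : Type}

open Classical in
/-- The shortest prefix which is not a factor of `W`, or the whole word. -/
noncomputable def al (W s : List A) : List A :=
  if h : ∃ k, ¬ (s.take k) <:+: W then s.take (Nat.find h) else s

theorem al_of_mem {W s : List A} (h : s <:+: W) : al W s = s := by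
  unfold al
  rw [dif_neg]
  push Not
  intro k
  exact (List.take_prefix k s).isInfix.trans h

theorem al_spec {W s : List A} (h : ¬ s <:+: W) : al W s <+: s ∧ ¬ al W s <:+: W ∧
    ∀ p, p <+: al W s → p ≠ al W s → p <:+: W := by
  classical
  have hex : ∃ k, ¬ (s.take k) <:+: W := ⟨s.length, by rwa [List.take_length]⟩
  unfold al
  rw [dif_pos hex]
  refine ⟨List.take_prefix _ _, Nat.find_spec hex, ?_⟩
  intro p hp hne
  by_contra hpW
  have h1 : p <+: s := hp.trans (List.take_prefix _ _)
  have h2 : p = s.take p.length := List.prefix_iff_eq_take.1 h1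
  have h3 : Nat.find hex ≤ p.length := Nat.find_min' hex (by rwa [← h2])
  apply hne
  exact hp.eq_of_length_le (by rw [List.length_take]; omega)

theorem al_unique {W s p : List A} (hp : p <+: s) (hpW : ¬ p <:+: W)
    (hmin : ∀ q, q <+: p → q ≠ p → q <:+: W) : al W s = p := by
  have hs : ¬ s <:+: W := fun h => hpW (hp.isInfix.trans h)
  obtain ⟨h1, h2, h3⟩ := al_spec hs
  rcases List.prefix_or_prefix_of_prefix h1 hp with h | h
  · by_contra hne
    exact h2 (hmin _ h hne)
  · by_contra hne
    exact hpW (h3 _ h (Ne.symm hne))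

theorem al_append_left {W u : List A} (s : List A) (hu : ¬ u <:+: W) :
    al W (u ++ s) = al W u := by
  obtain ⟨h1, h2, h3⟩ := al_spec hu
  exact al_unique (h1.trans (List.prefix_append _ _)) h2 h3

theorem al_append_right (W u s : List A) : al W (u ++ al W s) = al W (u ++ s) := by
  by_cases hs : s <:+: W
  · rw [al_of_mem hs]
  · obtain ⟨h1, h2, h3⟩ := al_spec hs
    have h4 : ¬ (u ++ al W s) <:+: W := fun h => h2 ((List.suffix_append _ _).isInfix.trans h)
    obtain ⟨t, ht⟩ := h1
    have h5 : u ++ s = (u ++ al W s) ++ t := by rw [List.append_assoc, ht]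
    rw [h5, al_append_left t h4]

theorem al_not_mem {W s : List A} (h : ¬ s <:+: W) : ¬ al W s <:+: W := (al_spec h).2.1

theorem al_idem (W s : List A) : al W (al W s) = al W s := by
  have := al_append_right W [] s
  simpa using this

theorem al_length (W s : List A) : (al W s).length ≤ W.length + 1 := by
  by_cases hs : s <:+: W
  · rw [al_of_mem hs]
    exact hs.length_le.trans (Nat.le_succ _)
  · obtain ⟨h1, h2, h3⟩ := al_spec hs
    by_cases h0 : al W s = []
    · rw [h0]; simp
    · have h4 := h3 ((al W s).dropLast) (List.dropLast_prefix _) (fun h => by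
        have := congrArg List.length h
        rw [List.length_dropLast] at this
        have := List.length_pos_iff.2 h0
        omega)
      have := h4.length_le
      rw [List.length_dropLast] at this
      omega

/-- The only word fixed by the left action of `s`. -/
theorem al_fix {W s t : List A} (hs : s <:+: W) (hss : ¬ (s ++ s) <:+: W)
    (hst : ¬ (s ++ t) <:+: W) (h : al W (s ++ t) = t) : t = al W (s ++ s) := by
  obtain ⟨h1, h2, h3⟩ := al_spec hst
  rw [h] at h1 h2
  have hlen : s.length < t.length := by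
    by_contra hle
    exact h2 ((List.prefix_of_prefix_length_le h1 (List.prefix_append s t)
      (by omega)).isInfix.trans hs)
  obtain ⟨t1, rfl⟩ := List.prefix_of_prefix_length_le (List.prefix_append s t) h1 hlen.le
  rw [← h, ← List.append_assoc, al_append_left _ hss]

/-- The shortest suffix which is not a factor of `W`, or the whole word. -/
noncomputable def be (W s : List A) : List A := (al W.reverse s.reverse).reverse

theorem be_of_mem {W s : List A} (h : s <:+: W) : be W s = s := by
  unfold be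
  rw [al_of_mem (List.reverse_infix.2 h), List.reverse_reverse]

theorem be_not_mem {W s : List A} (h : ¬ s <:+: W) : ¬ be W s <:+: W := by
  unfold be
  intro h'
  rw [← List.reverse_infix, List.reverse_reverse] at h'
  exact al_not_mem (fun h'' => h (List.reverse_infix.1 h'')) h'

theorem be_append (W v s : List A) : be W (be W v ++ s) = be W (v ++ s) := by
  unfold be
  rw [List.reverse_append, List.reverse_reverse, al_append_right, ← List.reverse_append]

theorem be_append_right {W u : List A} (s : List A) (hu : ¬ u <:+: W) :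
    be W (s ++ u) = be W u := by
  unfold be
  rw [List.reverse_append, al_append_left _ (fun h => hu (List.reverse_infix.1 h))]

theorem be_idem (W s : List A) : be W (be W s) = be W s := by
  have := be_append W s []
  simpa using this

theorem be_length (W s : List A) : (be W s).length ≤ W.length + 1 := by
  unfold be
  rw [List.length_reverse]
  simpa using al_length W.reverse s.reverse

theorem be_suffix (W s : List A) : be W s <:+ s := by
  by_cases hs : s <:+: W
  · rw [be_of_mem hs]
  · unfold be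
    have := (al_spec (W := W.reverse) (s := s.reverse)
      (fun h => hs (List.reverse_infix.1 h))).1
    rw [← List.reverse_prefix, List.reverse_reverse]
    exact this

theorem be_fix {W s t : List A} (hs : s <:+: W) (hss : ¬ (s ++ s) <:+: W)
    (hst : ¬ (t ++ s) <:+: W) (h : be W (t ++ s) = t) : t = be W (s ++ s) := by
  have h' := congrArg List.reverse h
  unfold be at h' ⊢
  rw [List.reverse_reverse, List.reverse_append] at h'
  have := al_fix (W := W.reverse) (s := s.reverse) (t := t.reverse) (List.reverse_infix.2 hs)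
    (fun h => hss (by rw [← List.reverse_append] at h; exact List.reverse_infix.1 h))
    (fun h => hst (by rw [← List.reverse_append] at h; exact List.reverse_infix.1 h)) h'
  rw [List.reverse_append, ← this, List.reverse_reverse]

theorem ww_aux {W s t : List A} (hsq : ∀ r, r ≠ [] → ¬ (r ++ r) <:+: W) (hs0 : s ≠ [])
    (ht : t <:+: W) (h1 : ¬ (s ++ t) <:+: W) (h2 : ¬ (t ++ s) <:+: W)
    (ha : al W (s ++ t) = al W (t ++ s)) (hb : be W (s ++ t) = be W (t ++ s))
    (hle : s.length ≤ t.length) : s = t := by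
  obtain ⟨a1, a2, -⟩ := al_spec h1
  have a3 := (al_spec h2).1
  rw [← ha] at a3
  have hp : t.length < (al W (s ++ t)).length := by
    by_contra hlt
    exact a2 ((List.prefix_of_prefix_length_le a3 (List.prefix_append t s)
      (by omega)).isInfix.trans ht)
  have h3 : t <+: al W (s ++ t) := List.prefix_of_prefix_length_le (List.prefix_append t s) a3
    hp.le
  obtain ⟨t', ht'⟩ := List.prefix_of_prefix_length_le (List.prefix_append s t) (h3.trans a1) hle
  by_cases h0 : t' = []
  · rw [h0, List.append_nil] at ht'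
    exact ht'
  · exfalso
    have hss : ¬ (s ++ s) <:+: W := hsq s hs0
    have h4 : al W (s ++ t) <+: s ++ s := by
      rw [← ht', ← List.append_assoc, al_append_left _ hss]
      exact (al_spec hss).1
    have h5 := h4.length_le
    rw [List.length_append] at h5
    have h6 : t'.length < s.length := by
      have := congrArg List.length ht'
      rw [List.length_append] at this
      omega
    have b1 := be_suffix W (s ++ t)
    have b2 : be W (s ++ t) <:+ t ++ s := by
      rw [hb]
      exact be_suffix _ _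
    have hq : t.length < (be W (s ++ t)).length := by
      by_contra hlt
      exact be_not_mem h1 ((List.suffix_of_suffix_length_le b1 (List.suffix_append s t)
        (by omega)).isInfix.trans ht)
    have h7 : t <:+ be W (s ++ t) := List.suffix_of_suffix_length_le (List.suffix_append s t) b1
      hq.le
    obtain ⟨t2, ht2⟩ := List.suffix_of_suffix_length_le (List.suffix_append t s) (h7.trans b2) hle
    have h8 : t2.length = t'.length := by
      have e1 := congrArg List.length ht'
      have e2 := congrArg List.length ht2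
      rw [List.length_append] at e1 e2
      omega
    have h9 : t2 <+: s := by
      refine List.prefix_of_prefix_length_le (l₃ := t) ?_ ?_ (by omega)
      · rw [← ht2]; exact List.prefix_append _ _
      · rw [← ht']; exact List.prefix_append _ _
    obtain ⟨s2, hs2⟩ := h9
    have h10 : t2 ≠ [] := by
      intro h
      rw [h] at h8
      exact h0 (List.length_eq_zero_iff.1 h8.symm)
    apply hsq t2 h10
    refine List.IsInfix.trans ?_ ht
    rw [← ht2, ← hs2, ← List.append_assoc]
    exact (List.prefix_append _ _).isInfix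

theorem ww {W s t : List A} (hsq : ∀ r, r ≠ [] → ¬ (r ++ r) <:+: W) (hs0 : s ≠ []) (ht0 : t ≠ [])
    (hs : s <:+: W) (ht : t <:+: W) (h1 : ¬ (s ++ t) <:+: W) (h2 : ¬ (t ++ s) <:+: W)
    (ha : al W (s ++ t) = al W (t ++ s)) (hb : be W (s ++ t) = be W (t ++ s)) : s = t := by
  rcases le_total s.length t.length with h | h
  · exact ww_aux hsq hs0 ht h1 h2 ha hb h
  · exact (ww_aux hsq ht0 hs h2 h1 ha.symm hb.symm h).symm

theorem ww_mem {W s t : List A} (hsq : ∀ r, r ≠ [] → ¬ (r ++ r) <:+: W) (hs0 : s ≠ [])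
    (ht0 : t ≠ []) (h1 : (s ++ t) <:+: W) (h2 : s ++ t = t ++ s) : s = t := by
  have aux : ∀ {s t : List A}, s ≠ [] → (s ++ t) <:+: W → s ++ t = t ++ s →
      s.length ≤ t.length → s = t := by
    intro s t hs0 h1 h2 hle
    obtain ⟨t', ht'⟩ := List.prefix_of_prefix_length_le (List.prefix_append s t)
      (by rw [h2]; exact List.prefix_append t s) hle
    exfalso
    apply hsq s hs0
    refine List.IsInfix.trans ?_ h1
    rw [← ht', ← List.append_assoc]
    exact (List.prefix_append _ _).isInfix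
  rcases le_total s.length t.length with h | h
  · exact aux hs0 h1 h2 h
  · exact (aux ht0 (by rwa [← h2]) h2.symm h).symm

end Abs

section Sg

/-- The alphabet. -/
abbrev Al := Option (Bool × Bool × Bool)

/-- The left index set. -/
abbrev II := List Al × Fin 3

theorem WW_pre {n : ℕ} {v s : List Al} (hs : s <+: WW n) (hs0 : s ≠ [])
    (h : (v ++ s) <:+: WW n) : v = [] := by
  by_contra hv
  obtain ⟨s', rfl⟩ := WW_head n s hs0 hs
  exact WW_first n v s' hv h

/-- Representatives of the identified indices. -/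
def ri (n : ℕ) (ε : Fin 3) (k : ℕ) : ℕ :=
  if ε = 0 then (k + k % 2) % (2 * n) else if ε = 1 then k - k % 2 else k

theorem ri_idem (n : ℕ) (ε : Fin 3) (k : ℕ) : ri n ε (ri n ε k) = ri n ε k := by
  unfold ri
  split_ifs with h1 h2
  · have h3 : (k + k % 2) % (2 * n) % 2 = 0 := by
      rw [Nat.mod_mul_right_mod]; omega
    rw [h3, add_zero, Nat.mod_mod]
  · omega
  · rfl

theorem ri_lt {n : ℕ} {k : ℕ} (ε : Fin 3) (hk : k < 2 * n) : ri n ε k < 2 * n := by
  unfold ri
  split_ifs with h1 h2
  · exact Nat.mod_lt _ (by omega)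
  · omega
  · exact hk

open Classical in
/-- The normal form of a left index. -/
noncomputable def rho (n : ℕ) (i : II) : II :=
  if i.1 <:+: WW n then
    if i.1 <+: WW n ∧ i.1 ≠ [] then ((WW n).take (ri n i.2 (i.1.length - 1) + 1), i.2) else i
  else (al (WW n) i.1, 2)

theorem rho_kill {n : ℕ} {s : List Al} (hs : ¬ s <:+: WW n) (ε : Fin 3) :
    rho n (s, ε) = (al (WW n) s, 2) := by
  unfold rho
  rw [if_neg hs]

theorem rho_pre {n : ℕ} {s : List Al} (hs : s <+: WW n) (hs0 : s ≠ []) (ε : Fin 3) :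
    rho n (s, ε) = ((WW n).take (ri n ε (s.length - 1) + 1), ε) := by
  unfold rho
  rw [if_pos hs.isInfix, if_pos ⟨hs, hs0⟩]

theorem rho_else {n : ℕ} {s : List Al} (hs : s <:+: WW n) (hs0 : ¬ (s <+: WW n ∧ s ≠ []))
    (ε : Fin 3) : rho n (s, ε) = (s, ε) := by
  unfold rho
  rw [if_pos hs, if_neg hs0]

theorem rho_two {n : ℕ} {s : List Al} (hs : s <:+: WW n) : rho n (s, 2) = (s, 2) := by
  by_cases h : s <+: WW n ∧ s ≠ []
  · rw [rho_pre h.1 h.2]
    have h1 : ri n 2 (s.length - 1) = s.length - 1 := by simp [ri]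
    have h2 : s.length - 1 + 1 = s.length := by
      have := List.length_pos_iff.2 h.2
      omega
    rw [h1, h2, ← List.prefix_iff_eq_take.1 h.1]
  · exact rho_else hs h 2

theorem take_ne {n k : ℕ} (hn : 1 ≤ n) : (WW n).take (k + 1) ≠ [] := by
  intro h
  have := congrArg List.length h
  rw [List.length_take, WW_len, List.length_nil] at this
  omega

theorem take_len {n k : ℕ} (hk : k < 2 * n) : ((WW n).take (k + 1)).length - 1 = k := by
  rw [List.length_take, WW_len]
  omega

theorem pre_lt {n : ℕ} {s : List Al} (hs : s <+: WW n) (hs0 : s ≠ []) : s.length - 1 < 2 * n := by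
  have := hs.length_le
  have := List.length_pos_iff.2 hs0
  rw [WW_len] at *
  omega

/-- Compatibility of the normal form with prefixing. -/
theorem rho_rho {n : ℕ} (hn : 1 ≤ n) (u : List Al) (i : II) :
    rho n (u ++ (rho n i).1, (rho n i).2) = rho n (u ++ i.1, i.2) := by
  obtain ⟨s, ε⟩ := i
  by_cases hs : s <:+: WW n
  · by_cases hp : s <+: WW n ∧ s ≠ []
    · rw [rho_pre hp.1 hp.2]
      have hlt := pre_lt hp.1 hp.2
      have hlt' := ri_lt ε hlt
      set p := (WW n).take (ri n ε (s.length - 1) + 1) with hpdef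
      have hp1 : p <+: WW n := List.take_prefix _ _
      have hp0 : p ≠ [] := take_ne hn
      rcases eq_or_ne u [] with hu | hu
      · subst hu
        simp only [List.nil_append]
        rw [rho_pre hp1 hp0, rho_pre hp.1 hp.2, hpdef, take_len hlt', ri_idem]
      · obtain ⟨s', hs'⟩ := WW_head n s hp.2 hp.1
        obtain ⟨p', hp'⟩ := WW_head n p hp0 hp1
        have h1 : ¬ (u ++ [none]) <:+: WW n := WW_first n u [] hu
        simp only
        rw [hs', hp', show u ++ none :: p' = (u ++ [none]) ++ p' by simp,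
          show u ++ none :: s' = (u ++ [none]) ++ s' by simp,
          rho_kill (fun h => h1 ((List.prefix_append _ _).isInfix.trans h)),
          rho_kill (fun h => h1 ((List.prefix_append _ _).isInfix.trans h)),
          al_append_left _ h1, al_append_left _ h1]
    · rw [rho_else hs hp]
  · rw [rho_kill hs]
    simp only
    have h1 : ¬ (u ++ s) <:+: WW n := fun h => hs ((List.suffix_append _ _).isInfix.trans h)
    have h2 : ¬ (u ++ al (WW n) s) <:+: WW n := fun h =>
      al_not_mem hs ((List.suffix_append _ _).isInfix.trans h)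
    rw [rho_kill h1, rho_kill h2, al_append_right]

theorem rho_pref {n : ℕ} (hn : 1 ≤ n) (v : List Al) (i : II) :
    (v ++ (rho n i).1) <+: WW n ↔ (v ++ i.1) <+: WW n := by
  obtain ⟨s, ε⟩ := i
  by_cases hs : s <:+: WW n
  · by_cases hp : s <+: WW n ∧ s ≠ []
    · rw [rho_pre hp.1 hp.2]
      simp only
      constructor
      · intro h
        have := WW_pre (List.take_prefix _ _) (take_ne hn) h.isInfix
        rw [this]
        simpa using hp.1
      · intro h
        have := WW_pre hp.1 hp.2 h.isInfix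
        rw [this]
        simpa using List.take_prefix _ _
    · rw [rho_else hs hp]
  · rw [rho_kill hs]
    simp only
    constructor
    · intro h
      exact absurd ((List.suffix_append _ _).isInfix.trans h.isInfix) (al_not_mem hs)
    · intro h
      exact absurd ((List.suffix_append _ _).isInfix.trans h.isInfix) hs

theorem rho_snd {n : ℕ} {v : List Al} {i : II} (h : (v ++ i.1) <+: WW n) :
    (rho n i).2 = i.2 := by
  obtain ⟨s, ε⟩ := i
  have hs : s <:+: WW n := (List.suffix_append _ _).isInfix.trans h.isInfix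
  by_cases hp : s <+: WW n ∧ s ≠ []
  · rw [rho_pre hp.1 hp.2]
  · rw [rho_else hs hp]

theorem rho_len {n : ℕ} (i : II) : (rho n i).1.length ≤ 2 * n + 1 := by
  obtain ⟨s, ε⟩ := i
  by_cases hs : s <:+: WW n
  · by_cases hp : s <+: WW n ∧ s ≠ []
    · rw [rho_pre hp.1 hp.2]
      have := (List.take_prefix (ri n ε (s.length - 1) + 1) (WW n)).length_le
      rw [WW_len] at this
      exact this.trans (Nat.le_succ _)
    · rw [rho_else hs hp]
      have := hs.length_le
      rw [WW_len] at this
      exact this.trans (Nat.le_succ _)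
  · rw [rho_kill hs]
    have := al_length (WW n) s
    rwa [WW_len] at this

/-- Pairs of maps. -/
@[ext] structure El where
  /-- the left action -/
  l : II → II
  /-- the right action -/
  r : List Al → List Al

instance : Semigroup El where
  mul x y := ⟨fun i => x.l (y.l i), fun q => y.r (x.r q)⟩
  mul_assoc _ _ _ := rfl

theorem mul_l (x y : El) (i : II) : (x * y).l i = x.l (y.l i) := rfl

theorem mul_r (x y : El) (q : List Al) : (x * y).r q = y.r (x.r q) := rfl

/-- The element of a word. -/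
noncomputable def wo (n : ℕ) (s : List Al) : El :=
  ⟨fun i => rho n (s ++ i.1, i.2), fun q => be (WW n) (q ++ s)⟩

open Classical in
/-- The element `u e v`. -/
noncomputable def te (n : ℕ) (u v : List Al) : El :=
  ⟨fun i => if (v ++ i.1) <+: WW n then rho n (u, i.2) else rho n (u, 2),
    fun _ => be (WW n) v⟩

/-- A constant. -/
def ko (i : II) (q : List Al) : El := ⟨fun _ => i, fun _ => q⟩

theorem wo_mul_wo {n : ℕ} (hn : 1 ≤ n) (s t : List Al) : wo n s * wo n t = wo n (s ++ t) := by
  apply El.ext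
  · funext i
    rw [mul_l]
    simp only [wo]
    rw [rho_rho hn, List.append_assoc]
  · funext q
    rw [mul_r]
    simp only [wo]
    rw [be_append, List.append_assoc]

theorem wo_mul_te {n : ℕ} (hn : 1 ≤ n) (s u v : List Al) :
    wo n s * te n u v = te n (s ++ u) v := by
  apply El.ext
  · funext i
    rw [mul_l]
    simp only [wo, te]
    split_ifs
    · exact rho_rho hn s (u, i.2)
    · exact rho_rho hn s (u, 2)
  · funext q
    rfl

theorem te_mul_wo {n : ℕ} (hn : 1 ≤ n) (u v s : List Al) :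
    te n u v * wo n s = te n u (v ++ s) := by
  apply El.ext
  · funext i
    rw [mul_l]
    simp only [wo, te]
    have h1 := rho_pref hn v (s ++ i.1, i.2)
    simp only [← List.append_assoc] at h1 ⊢
    by_cases h : (v ++ s ++ i.1) <+: WW n
    · rw [if_pos (h1.2 h), if_pos h, rho_snd (v := v) (by simpa [← List.append_assoc] using h)]
    · rw [if_neg (fun h' => h (h1.1 h')), if_neg h]
  · funext q
    rw [mul_r]
    simp only [wo, te]
    rw [be_append]

theorem te_mul_te_pos {n : ℕ} (hn : 1 ≤ n) {u v u' v' : List Al} (h : (v ++ u') <+: WW n) :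
    te n u v * te n u' v' = te n u v' := by
  apply El.ext
  · funext i
    rw [mul_l]
    simp only [te]
    by_cases h1 : (v' ++ i.1) <+: WW n
    · rw [if_pos h1, if_pos ((rho_pref hn v (u', i.2)).2 h), rho_snd (v := v) h, if_pos h1]
    · rw [if_neg h1, if_pos ((rho_pref hn v (u', 2)).2 h), rho_snd (v := v) h, if_neg h1]
  · funext q
    rfl

theorem te_mul_te_neg {n : ℕ} (hn : 1 ≤ n) {u v u' v' : List Al} (h : ¬ (v ++ u') <+: WW n) :
    te n u v * te n u' v' = ko (rho n (u, 2)) (be (WW n) v') := by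
  apply El.ext
  · funext i
    rw [mul_l]
    simp only [te, ko]
    split_ifs with h1 h2 h2
    · exact absurd ((rho_pref hn v (u', i.2)).1 h2) h
    · rfl
    · exact absurd ((rho_pref hn v (u', 2)).1 h2) h
    · rfl
  · funext q
    rfl

theorem mul_ko (x : El) (i : II) (q : List Al) : x * ko i q = ko (x.l i) q := rfl

theorem ko_mul (x : El) (i : II) (q : List Al) : ko i q * x = ko i (x.r q) := rfl

theorem wo_kill {n : ℕ} {s : List Al} (h : ¬ s <:+: WW n) :
    wo n s = ko (al (WW n) s, 2) (be (WW n) s) := by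
  apply El.ext
  · funext i
    simp only [wo, ko]
    rw [rho_kill (fun h' => h ((List.prefix_append _ _).isInfix.trans h')), al_append_left _ h]
  · funext q
    simp only [wo, ko]
    rw [be_append_right _ h]

theorem te_kill {n : ℕ} {u v : List Al} (h : ¬ (u <:+: WW n ∧ v <+: WW n)) :
    te n u v = ko (rho n (u, 2)) (be (WW n) v) := by
  apply El.ext
  · funext i
    simp only [te, ko]
    split_ifs with h1
    · have h2 : ¬ u <:+: WW n := fun h' => h ⟨h', (List.prefix_append _ _).trans h1⟩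
      rw [rho_kill h2, rho_kill h2]
    · rfl
  · funext q
    rfl

/-- The generators. -/
def gens (n : ℕ) : Set El :=
  (Set.range (fun a : Al => wo n [a]) ∪ {te n [] []}) ∪ Set.range (fun ε : Fin 3 => ko ([], ε) [])

/-- The three kinds of elements. -/
def Form (n : ℕ) (x : El) : Prop :=
  (∃ s, s ≠ [] ∧ x = wo n s) ∨ (∃ u v, x = te n u v) ∨
    ∃ i q, x = ko (rho n i) (be (WW n) q)

theorem form_mul {n : ℕ} (hn : 1 ≤ n) {x y : El} (hx : Form n x) (hy : Form n y) :
    Form n (x * y) := by
  rcases hy with ⟨t, ht, rfl⟩ | ⟨u', v', rfl⟩ | ⟨j, r, rfl⟩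
  · rcases hx with ⟨s, hs, rfl⟩ | ⟨u, v, rfl⟩ | ⟨i, q, rfl⟩
    · left
      exact ⟨s ++ t, by simp [hs], wo_mul_wo hn s t⟩
    · right; left
      exact ⟨u, v ++ t, te_mul_wo hn u v t⟩
    · right; right
      rw [ko_mul]
      exact ⟨i, be (WW n) q ++ t, rfl⟩
  · rcases hx with ⟨s, hs, rfl⟩ | ⟨u, v, rfl⟩ | ⟨i, q, rfl⟩
    · right; left
      exact ⟨s ++ u', v', wo_mul_te hn s u' v'⟩
    · by_cases h : (v ++ u') <+: WW n
      · right; left
        exact ⟨u, v', te_mul_te_pos hn h⟩
      · right; right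
        exact ⟨_, _, te_mul_te_neg hn h⟩
    · right; right
      rw [ko_mul]
      exact ⟨i, v', rfl⟩
  · rcases hx with ⟨s, hs, rfl⟩ | ⟨u, v, rfl⟩ | ⟨i, q, rfl⟩
    · right; right
      rw [mul_ko]
      exact ⟨_, r, rfl⟩
    · right; right
      rw [mul_ko]
      by_cases h : (v ++ (rho n j).1) <+: WW n
      · refine ⟨(u, (rho n j).2), r, ?_⟩
        simp only [te]
        rw [if_pos h]
      · refine ⟨(u, 2), r, ?_⟩
        simp only [te]
        rw [if_neg h]
    · right; right
      rw [mul_ko]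
      exact ⟨i, r, rfl⟩

theorem rho_nil (n : ℕ) (ε : Fin 3) : rho n ([], ε) = ([], ε) :=
  rho_else List.nil_infix (by simp) ε

theorem form_gen {n : ℕ} {x : El} (hx : x ∈ gens n) : Form n x := by
  rcases hx with (⟨a, rfl⟩ | h) | ⟨ε, rfl⟩
  · left
    exact ⟨[a], by simp, rfl⟩
  · right; left
    exact ⟨[], [], h⟩
  · right; right
    refine ⟨([], ε), [], ?_⟩
    rw [rho_nil, be_of_mem List.nil_infix]

/-- The semigroup. -/
def Sn (n : ℕ) : Subsemigroup El := Subsemigroup.closure (gens n)

theorem form_of_mem {n : ℕ} (hn : 1 ≤ n) {x : El} (hx : x ∈ Sn n) : Form n x := by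
  induction hx using Subsemigroup.closure_induction with
  | mem x hx => exact form_gen hx
  | mul x y _ _ hx hy => exact form_mul hn hx hy

/-- Normal forms. -/
def NF (n : ℕ) (x : El) : Prop :=
  (∃ s, s ≠ [] ∧ s <:+: WW n ∧ x = wo n s) ∨
    (∃ u v, u <:+: WW n ∧ v <+: WW n ∧ x = te n u v) ∨
    ∃ i q, x = ko i q ∧ i.1.length ≤ 2 * n + 1 ∧ q.length ≤ 2 * n + 1

theorem nf_of_form {n : ℕ} {x : El} (hx : Form n x) : NF n x := by
  have hb : ∀ q, (be (WW n) q).length ≤ 2 * n + 1 := fun q => by
    have := be_length (WW n) q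
    rwa [WW_len] at this
  rcases hx with ⟨s, hs, rfl⟩ | ⟨u, v, rfl⟩ | ⟨i, q, rfl⟩
  · by_cases h : s <:+: WW n
    · exact Or.inl ⟨s, hs, h, rfl⟩
    · refine Or.inr (Or.inr ⟨_, _, wo_kill h, ?_, hb _⟩)
      have := al_length (WW n) s
      rwa [WW_len] at this
  · by_cases h : u <:+: WW n ∧ v <+: WW n
    · exact Or.inr (Or.inl ⟨u, v, h.1, h.2, rfl⟩)
    · exact Or.inr (Or.inr ⟨_, _, te_kill h, rho_len _, hb _⟩)
  · exact Or.inr (Or.inr ⟨_, _, rfl, rho_len _, hb _⟩)

theorem nf_finite (n : ℕ) : {x : El | NF n x}.Finite := by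
  have hF : {s : List Al | s.length ≤ 2 * n + 1}.Finite := List.finite_length_le _ _
  have h1 : ((fun s => wo n s) '' {s : List Al | s.length ≤ 2 * n + 1}).Finite := hF.image _
  have h2 : ((fun p : List Al × List Al => te n p.1 p.2) ''
      ({s : List Al | s.length ≤ 2 * n + 1} ×ˢ {s : List Al | s.length ≤ 2 * n + 1})).Finite :=
    (hF.prod hF).image _
  have h3 : ((fun p : (List Al × Fin 3) × List Al => ko p.1 p.2) ''
      (({s : List Al | s.length ≤ 2 * n + 1} ×ˢ (Set.univ : Set (Fin 3))) ×ˢ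
        {s : List Al | s.length ≤ 2 * n + 1})).Finite :=
    ((hF.prod Set.finite_univ).prod hF).image _
  refine ((h1.union h2).union h3).subset ?_
  have hlen : ∀ s : List Al, s <:+: WW n → s.length ≤ 2 * n + 1 := fun s hs => by
    have := hs.length_le
    rw [WW_len] at this
    omega
  rintro x (⟨s, -, hs, rfl⟩ | ⟨u, v, hu, hv, rfl⟩ | ⟨i, q, rfl, hi, hq⟩)
  · exact Or.inl (Or.inl ⟨s, hlen s hs, rfl⟩)
  · exact Or.inl (Or.inr ⟨(u, v), ⟨hlen u hu, hlen v hv.isInfix⟩, rfl⟩)
  · exact Or.inr ⟨(i, q), ⟨⟨hi, trivial⟩, hq⟩, rfl⟩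

end Sg

section Com

theorem ko_inj {i j : II} {q r : List Al} (h : ko i q = ko j r) : i = j ∧ q = r :=
  ⟨congrFun (congrArg El.l h) ([], 0), congrFun (congrArg El.r h) []⟩

theorem com_ko_ko {i j : II} {q r : List Al} (h : ko i q * ko j r = ko j r * ko i q) :
    ko i q = ko j r := by
  rw [mul_ko, mul_ko] at h
  obtain ⟨h1, h2⟩ := ko_inj h
  have h1' : i = j := h1
  rw [h1', ← h2]

theorem com_wo_ko {n : ℕ} (hn : 1 ≤ n) {s : List Al} (hs0 : s ≠ []) (hs : s <:+: WW n) {i : II}
    {q : List Al} (h : wo n s * ko i q = ko i q * wo n s) :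
    i = (al (WW n) (s ++ s), 2) ∧ q = be (WW n) (s ++ s) := by
  rw [mul_ko, ko_mul] at h
  obtain ⟨h1, h2⟩ := ko_inj h
  have hss := WW_sqfree n s hs0
  constructor
  · change rho n (s ++ i.1, i.2) = i at h1
    by_cases hm : (s ++ i.1) <:+: WW n
    · exfalso
      by_cases hp : (s ++ i.1) <+: WW n ∧ s ++ i.1 ≠ []
      · rw [rho_pre hp.1 hp.2] at h1
        have e1 := congrArg Prod.fst h1
        simp only at e1
        apply hs0
        refine WW_pre (s := i.1) ?_ ?_ hm
        · rw [← e1]; exact List.take_prefix _ _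
        · rw [← e1]; exact take_ne hn
      · rw [rho_else hm hp] at h1
        have e1 := congrArg (fun p : II => p.1.length) h1
        simp only [List.length_append] at e1
        exact hs0 (List.length_eq_zero_iff.1 (by omega))
    · rw [rho_kill hm] at h1
      have e1 := congrArg Prod.fst h1
      have e2 := congrArg Prod.snd h1
      simp only at e1 e2
      have := al_fix hs hss hm e1
      exact Prod.ext this e2.symm
  · change q = be (WW n) (q ++ s) at h2
    by_cases hm : (q ++ s) <:+: WW n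
    · exfalso
      rw [be_of_mem hm] at h2
      have e1 := congrArg List.length h2
      rw [List.length_append] at e1
      exact hs0 (List.length_eq_zero_iff.1 (by omega))
    · exact be_fix hs hss hm h2.symm

theorem com_te_ko {n : ℕ} (hn : 1 ≤ n) {u v : List Al} (hv : v <+: WW n)
    {i : II} {q : List Al} (h : te n u v * ko i q = ko i q * te n u v) :
    q = v ∧ (i = rho n (u, 2) ∨ ((v ++ u) <+: WW n ∧ i = rho n (u, i.2))) := by
  rw [mul_ko, ko_mul] at h
  obtain ⟨h1, h2⟩ := ko_inj h
  refine ⟨by rw [h2]; exact be_of_mem hv.isInfix, ?_⟩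
  simp only [te] at h1
  split_ifs at h1 with h3
  · right
    refine ⟨?_, h1.symm⟩
    rw [← h1] at h3
    exact (rho_pref hn v (u, i.2)).1 h3
  · left
    exact h1.symm

theorem te_l_two {n : ℕ} (u v : List Al) (s : List Al) :
    (te n u v).l (s, 2) = rho n (u, 2) := by
  simp only [te]
  split_ifs <;> rfl

theorem com_te_te {n : ℕ} {u v u' v' : List Al} (hu : u <:+: WW n)
    (hv : v <+: WW n) (hu' : u' <:+: WW n) (hv' : v' <+: WW n)
    (h : te n u v * te n u' v' = te n u' v' * te n u v) : u = u' ∧ v = v' := by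
  have h1 := congrFun (congrArg El.l h) ([], 2)
  have h2 := congrFun (congrArg El.r h) []
  rw [mul_l, mul_l, te_l_two, te_l_two, rho_two hu, rho_two hu', te_l_two, te_l_two,
    rho_two hu, rho_two hu'] at h1
  rw [mul_r, mul_r] at h2
  simp only [te] at h2
  rw [be_of_mem hv.isInfix, be_of_mem hv'.isInfix] at h2
  exact ⟨congrArg Prod.fst h1, h2.symm⟩

theorem com_wo_te {n : ℕ} (hn : 1 ≤ n) {s u v : List Al} (hs0 : s ≠ []) (hv : v <+: WW n)
    (h : wo n s * te n u v = te n u v * wo n s) : False := by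
  rw [wo_mul_te hn, te_mul_wo hn] at h
  have h2 := congrFun (congrArg El.r h) []
  simp only [te] at h2
  rw [be_of_mem hv.isInfix] at h2
  by_cases hm : (v ++ s) <:+: WW n
  · rw [be_of_mem hm] at h2
    have e1 := congrArg List.length h2
    rw [List.length_append] at e1
    exact hs0 (List.length_eq_zero_iff.1 (by omega))
  · exact be_not_mem hm (by rw [← h2]; exact hv.isInfix)

theorem com_wo_wo {n : ℕ} (hn : 1 ≤ n) {s t : List Al} (hs0 : s ≠ []) (ht0 : t ≠ [])
    (hs : s <:+: WW n) (ht : t <:+: WW n) (h : wo n s * wo n t = wo n t * wo n s) : s = t := by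
  rw [wo_mul_wo hn, wo_mul_wo hn] at h
  have h2 := congrFun (congrArg El.r h) []
  simp only [wo, List.nil_append] at h2
  by_cases h3 : (s ++ t) <:+: WW n
  · by_cases h4 : (t ++ s) <:+: WW n
    · rw [be_of_mem h3, be_of_mem h4] at h2
      exact ww_mem (WW_sqfree n) hs0 ht0 h3 h2
    · exfalso
      rw [be_of_mem h3] at h2
      exact be_not_mem h4 (by rwa [← h2])
  · by_cases h4 : (t ++ s) <:+: WW n
    · exfalso
      rw [be_of_mem h4] at h2
      exact be_not_mem h3 (by rwa [h2])
    · rw [wo_kill h3, wo_kill h4] at h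
      obtain ⟨e1, e2⟩ := ko_inj h
      exact ww (WW_sqfree n) hs0 ht0 hs ht h3 h4 (congrArg Prod.fst e1) e2

theorem nbr_wo {n : ℕ} (hn : 1 ≤ n) {s : List Al} (hs0 : s ≠ []) (hs : s <:+: WW n) {y : El}
    (hy : NF n y) (hne : y ≠ wo n s) (h : wo n s * y = y * wo n s) :
    y = ko (al (WW n) (s ++ s), 2) (be (WW n) (s ++ s)) := by
  rcases hy with ⟨t, ht0, ht, rfl⟩ | ⟨u, v, hu, hv, rfl⟩ | ⟨i, q, rfl, -, -⟩
  · exact absurd (by rw [com_wo_wo hn hs0 ht0 hs ht h]) hne
  · exact absurd h (fun h => com_wo_te hn hs0 hv h)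
  · obtain ⟨rfl, rfl⟩ := com_wo_ko hn hs0 hs h
    rfl

theorem nbr_te {n : ℕ} (hn : 1 ≤ n) {u v : List Al} (hu : u <:+: WW n) (hv : v <+: WW n) {y : El}
    (hy : NF n y) (hne : y ≠ te n u v) (h : te n u v * y = y * te n u v) :
    ∃ i, y = ko i v ∧ (i = rho n (u, 2) ∨ ((v ++ u) <+: WW n ∧ i = rho n (u, i.2))) := by
  rcases hy with ⟨t, ht0, ht, rfl⟩ | ⟨u', v', hu', hv', rfl⟩ | ⟨i, q, rfl, -, -⟩
  · exact absurd h.symm (fun h => com_wo_te hn ht0 hv h)
  · obtain ⟨rfl, rfl⟩ := com_te_te hu hv hu' hv' h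
    exact absurd rfl hne
  · obtain ⟨rfl, h2⟩ := com_te_ko hn hv h
    exact ⟨i, rfl, h2⟩

theorem rho_eq {n : ℕ} (hn : 1 ≤ n) {u u' : List Al} {ε ε' : Fin 3} (hu : u <:+: WW n)
    (hu' : u' <:+: WW n) (hne : u ≠ u') (h : rho n (u, ε) = rho n (u', ε')) :
    u <+: WW n ∧ u ≠ [] ∧ u' <+: WW n ∧ u' ≠ [] ∧ ε ≠ 2 ∧
      ri n ε (u'.length - 1) = ri n ε (u.length - 1) ∧ u'.length - 1 ≠ u.length - 1 := by
  by_cases hp : u <+: WW n ∧ u ≠ []
  · by_cases hp' : u' <+: WW n ∧ u' ≠ []
    · rw [rho_pre hp.1 hp.2, rho_pre hp'.1 hp'.2] at h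
      have e1 := congrArg Prod.fst h
      have e2 : ε = ε' := congrArg Prod.snd h
      subst e2
      simp only at e1
      have e3 : _ - 1 = _ - 1 := congrArg (fun l : List Al => l.length - 1) e1
      rw [take_len (ri_lt ε (pre_lt hp.1 hp.2)), take_len (ri_lt ε (pre_lt hp'.1 hp'.2))] at e3
      have hk : u'.length - 1 ≠ u.length - 1 := by
        intro hk
        apply hne
        have l1 := List.length_pos_iff.2 hp.2
        have l2 := List.length_pos_iff.2 hp'.2
        rw [List.prefix_iff_eq_take.1 hp.1, List.prefix_iff_eq_take.1 hp'.1,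
          show u.length = u'.length by omega]
      refine ⟨hp.1, hp.2, hp'.1, hp'.2, ?_, e3.symm, hk⟩
      rintro rfl
      simp only [ri] at e3
      exact hk (by simpa using e3.symm)
    · rw [rho_pre hp.1 hp.2, rho_else hu' hp'] at h
      have e1 := congrArg Prod.fst h
      simp only at e1
      exact absurd ⟨by rw [← e1]; exact List.take_prefix _ _, by rw [← e1]; exact take_ne hn⟩ hp'
  · by_cases hp' : u' <+: WW n ∧ u' ≠ []
    · rw [rho_pre hp'.1 hp'.2, rho_else hu hp] at h
      have e1 := congrArg Prod.fst h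
      simp only at e1
      exact absurd ⟨by rw [e1]; exact List.take_prefix _ _, by rw [e1]; exact take_ne hn⟩ hp
    · rw [rho_else hu hp, rho_else hu' hp'] at h
      exact absurd (congrArg Prod.fst h) hne

section Core

variable {n : ℕ} (hn : 1 ≤ n) (P : Set El) (hP : ∀ x ∈ P, NF n x)
  (hd : ∀ x ∈ P, ∃ y ∈ P, ∃ z ∈ P, y ≠ z ∧ y ≠ x ∧ z ≠ x ∧ x * y = y * x ∧ x * z = z * x)

include hn hP hd

theorem core_wo {s : List Al} (hs0 : s ≠ []) (hs : s <:+: WW n) : wo n s ∉ P := by
  intro h
  obtain ⟨y, hy, z, hz, hyz, hyx, hzx, h1, h2⟩ := hd _ h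
  exact hyz ((nbr_wo hn hs0 hs (hP y hy) hyx h1).trans
    (nbr_wo hn hs0 hs (hP z hz) hzx h2).symm)

theorem core_te {u v : List Al} (hu : u <:+: WW n) (hv : v <+: WW n) (h : te n u v ∈ P) :
    (v ++ u) <+: WW n ∧ ∃ ε ε', ε ≠ ε' ∧ ko (rho n (u, ε)) v ∈ P ∧ ko (rho n (u, ε')) v ∈ P := by
  obtain ⟨y, hy, z, hz, hyz, hyx, hzx, h1, h2⟩ := hd _ h
  obtain ⟨i, rfl, hi⟩ := nbr_te hn hu hv (hP y hy) hyx h1
  obtain ⟨j, rfl, hj⟩ := nbr_te hn hu hv (hP z hz) hzx h2
  have hpre : (v ++ u) <+: WW n := by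
    rcases hi with hi | hi
    · rcases hj with hj | hj
      · exact absurd (by rw [hi, hj]) hyz
      · exact hj.1
    · exact hi.1
  have hi' : ∃ ε, i = rho n (u, ε) := by
    rcases hi with hi | hi
    · exact ⟨2, hi⟩
    · exact ⟨i.2, hi.2⟩
  have hj' : ∃ ε, j = rho n (u, ε) := by
    rcases hj with hj | hj
    · exact ⟨2, hj⟩
    · exact ⟨j.2, hj.2⟩
  obtain ⟨ε, rfl⟩ := hi'
  obtain ⟨ε', rfl⟩ := hj'
  refine ⟨hpre, ε, ε', ?_, hy, hz⟩
  rintro rfl
  exact hyz rfl

theorem core_ko {i : II} {q : List Al} (h : ko i q ∈ P) (x : El) :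
    ∃ u v, u <:+: WW n ∧ v <+: WW n ∧ te n u v ∈ P ∧ te n u v ≠ x ∧ q = v ∧
      ∃ ε, i = rho n (u, ε) := by
  have key : ∀ w ∈ P, w ≠ ko i q → ko i q * w = w * ko i q → w ≠ x →
      ∃ u v, u <:+: WW n ∧ v <+: WW n ∧ te n u v ∈ P ∧ te n u v ≠ x ∧ q = v ∧
        ∃ ε, i = rho n (u, ε) := by
    intro w hw hne hc hwx
    rcases hP w hw with ⟨s, hs0, hs, rfl⟩ | ⟨u, v, hu, hv, rfl⟩ | ⟨j, r, rfl, -, -⟩
    · exact absurd hw (core_wo hn P hP hd hs0 hs)
    · obtain ⟨h1, h2⟩ := com_te_ko hn hv hc.symm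
      refine ⟨u, v, hu, hv, hw, hwx, h1, ?_⟩
      rcases h2 with h2 | h2
      · exact ⟨2, h2⟩
      · exact ⟨i.2, h2.2⟩
    · exact absurd (com_ko_ko hc).symm hne
  obtain ⟨y, hy, z, hz, hyz, hyx, hzx, h1, h2⟩ := hd _ h
  by_cases hx : y = x
  · exact key z hz hzx h2 (fun h => hyz (hx.trans h.symm))
  · exact key y hy hyx h1 hx

theorem core_step {u v : List Al} (hu : u <:+: WW n) (hv : v <+: WW n) (h : te n u v ∈ P)
    {ε : Fin 3} (hε : ko (rho n (u, ε)) v ∈ P) : u <+: WW n ∧ u ≠ [] ∧ v = [] ∧ ε ≠ 2 ∧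
      ∃ k, k < 2 * n ∧ te n ((WW n).take (k + 1)) [] ∈ P ∧ ri n ε k = ri n ε (u.length - 1) ∧
        k ≠ u.length - 1 := by
  obtain ⟨u', v', hu', hv', hP', hne, rfl, ε', he⟩ := core_ko hn P hP hd hε (te n u v)
  have hne' : u ≠ u' := by
    rintro rfl
    exact hne rfl
  obtain ⟨a1, a2, a3, a4, a5, a6, a7⟩ := rho_eq hn hu hu' hne' he
  have hv0 : v = [] := WW_pre a1 a2 (core_te hn P hP hd hu hv h).1.isInfix
  refine ⟨a1, a2, hv0, a5, u'.length - 1, pre_lt a3 a4, ?_, a6, a7⟩
  have l2 := List.length_pos_iff.2 a4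
  rw [show u'.length - 1 + 1 = u'.length by omega, ← List.prefix_iff_eq_take.1 a3]
  rw [hv0] at hP'
  exact hP'

theorem core_next {k : ℕ} (hk : k < 2 * n) (h : te n ((WW n).take (k + 1)) [] ∈ P) :
    te n ((WW n).take ((k + 1) % (2 * n) + 1)) [] ∈ P := by
  have hu : (WW n).take (k + 1) <:+: WW n := (List.take_prefix _ _).isInfix
  obtain ⟨-, ε, ε', hne, h1, h2⟩ := core_te hn P hP hd hu List.nil_prefix h
  obtain ⟨-, -, -, b1, k1, c1, c2, c3, c4⟩ := core_step hn P hP hd hu List.nil_prefix h h1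
  obtain ⟨-, -, -, b2, k2, d1, d2, d3, d4⟩ := core_step hn P hP hd hu List.nil_prefix h h2
  rw [take_len hk] at c3 c4 d3 d4
  have key : ∀ δ : Fin 3, δ = (if k % 2 = 0 then 1 else 0) → ∀ k', k' < 2 * n →
      te n ((WW n).take (k' + 1)) [] ∈ P → ri n δ k' = ri n δ k → k' ≠ k →
      te n ((WW n).take ((k + 1) % (2 * n) + 1)) [] ∈ P := by
    intro δ hδ k' hk' hP' hr hkk
    rcases Nat.mod_two_eq_zero_or_one k with h0 | h0
    · rw [if_pos h0] at hδ
      subst hδ
      have hr' : k' - k' % 2 = k - k % 2 := by simpa [ri] using hr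
      have : k' = k + 1 := by omega
      rw [Nat.mod_eq_of_lt (by omega), ← this]
      exact hP'
    · rw [if_neg (by omega)] at hδ
      subst hδ
      have hr' : (k' + k' % 2) % (2 * n) = (k + k % 2) % (2 * n) := by simpa [ri] using hr
      rw [h0] at hr'
      rcases Nat.mod_two_eq_zero_or_one k' with h0' | h0'
      · rw [h0', add_zero, Nat.mod_eq_of_lt hk'] at hr'
        rw [← hr']
        exact hP'
      · exfalso
        rw [h0'] at hr'
        rcases Nat.lt_or_ge (k + 1) (2 * n) with h3 | h3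
        · rw [Nat.mod_eq_of_lt h3] at hr'
          rcases Nat.lt_or_ge (k' + 1) (2 * n) with h4 | h4
          · rw [Nat.mod_eq_of_lt h4] at hr'
            omega
          · rw [show k' + 1 = 2 * n by omega, Nat.mod_self] at hr'
            omega
        · rw [show k + 1 = 2 * n by omega, Nat.mod_self] at hr'
          rcases Nat.lt_or_ge (k' + 1) (2 * n) with h4 | h4
          · rw [Nat.mod_eq_of_lt h4] at hr'
            omega
          · omega
  by_cases hε : ε = (if k % 2 = 0 then 1 else 0)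
  · exact key ε hε k1 c1 c2 c3 c4
  · refine key ε' ?_ k2 d1 d2 d3 d4
    split_ifs at hε ⊢ <;> omega

theorem core (hne : P.Nonempty) {k : ℕ} (hk : k < 2 * n) :
    te n ((WW n).take (k + 1)) [] ∈ P := by
  have h1 : ∃ u v, u <:+: WW n ∧ v <+: WW n ∧ te n u v ∈ P := by
    obtain ⟨x, hx⟩ := hne
    rcases hP x hx with ⟨s, hs0, hs, rfl⟩ | ⟨u, v, hu, hv, rfl⟩ | ⟨j, r, rfl, -, -⟩
    · exact absurd hx (core_wo hn P hP hd hs0 hs)
    · exact ⟨u, v, hu, hv, hx⟩
    · obtain ⟨u, v, hu, hv, h, -⟩ := core_ko hn P hP hd hx (ko j r)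
      exact ⟨u, v, hu, hv, h⟩
  obtain ⟨u, v, hu, hv, h⟩ := h1
  obtain ⟨-, ε, ε', -, h2, -⟩ := core_te hn P hP hd hu hv h
  obtain ⟨-, -, -, -, k0, hk0, hk0', -⟩ := core_step hn P hP hd hu hv h h2
  have h3 : ∀ m, te n ((WW n).take ((k0 + m) % (2 * n) + 1)) [] ∈ P := by
    intro m
    induction m with
    | zero =>
      rw [add_zero, Nat.mod_eq_of_lt hk0]
      exact hk0'
    | succ m ih =>
      have := core_next hn P hP hd (Nat.mod_lt _ (by omega)) ih
      rwa [Nat.mod_add_mod] at this
  have := h3 (2 * n - k0 + k)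
  rwa [show k0 + (2 * n - k0 + k) = 2 * n + k by omega, Nat.add_mod_left,
    Nat.mod_eq_of_lt hk] at this

end Core

end Com

section Graph

/-- The commuting graph: vertices are the non-central elements, two distinct vertices are
adjacent when they commute. -/
def commGraph (S : Type) [Semigroup S] : SimpleGraph {x : S // ∃ y : S, x * y ≠ y * x} where
  Adj x y := x ≠ y ∧ (x : S) * y = y * x
  symm := ⟨fun _ _ h => ⟨h.1.symm, h.2.symm⟩⟩
  loopless := ⟨fun _ h => h.1 rfl⟩

/-- `Γ` is the commuting graph of a semigroup generated by at most `C` elements. -/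
def RankLE {V : Type} (Γ : SimpleGraph V) (C : ℕ) : Prop :=
  ∃ (S : Type) (_ : Semigroup S) (F : Finset S), F.card ≤ C ∧
    Subsemigroup.closure (F : Set S) = ⊤ ∧ Nonempty (commGraph S ≃g Γ)

theorem te_inj {n : ℕ} {k k' : ℕ} (hk : k < 2 * n) (hk' : k' < 2 * n)
    (h : te n ((WW n).take (k + 1)) [] = te n ((WW n).take (k' + 1)) []) : k = k' := by
  have h1 := congrFun (congrArg El.l h) ([], 2)
  rw [te_l_two, te_l_two, rho_two (List.take_prefix _ _).isInfix,
    rho_two (List.take_prefix _ _).isInfix] at h1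
  have h2 : _ - 1 = _ - 1 := congrArg (fun l : II => l.1.length - 1) h1
  rwa [take_len hk, take_len hk'] at h2

theorem cycle_length {n : ℕ} (hn : 1 ≤ n) {a : {x : Sn n // ∃ y : Sn n, x * y ≠ y * x}}
    (c : (commGraph (Sn n)).Walk a a) (hc : c.IsCycle) : 2 * n ≤ c.length + 1 := by
  classical
  let P : Set El := {x | ∃ v ∈ c.support, ((v : Sn n) : El) = x}
  have hP : ∀ x ∈ P, NF n x := by
    rintro x ⟨v, -, rfl⟩
    exact nf_of_form (form_of_mem hn v.1.2)
  have hd : ∀ x ∈ P, ∃ y ∈ P, ∃ z ∈ P, y ≠ z ∧ y ≠ x ∧ z ≠ x ∧ x * y = y * x ∧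
      x * z = z * x := by
    rintro x ⟨v, hv, rfl⟩
    have h1 := hc.ncard_neighborSet_toSubgraph_eq_two hv
    obtain ⟨y, z, hyz, hs⟩ := Set.ncard_eq_two.1 h1
    have hy : c.toSubgraph.Adj v y := by
      have : y ∈ c.toSubgraph.neighborSet v := by rw [hs]; simp
      exact this
    have hz : c.toSubgraph.Adj v z := by
      have : z ∈ c.toSubgraph.neighborSet v := by rw [hs]; simp
      exact this
    have inj : ∀ p q : {x : Sn n // ∃ y : Sn n, x * y ≠ y * x},
        ((p : Sn n) : El) = ((q : Sn n) : El) → p = q :=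
      fun p q h => Subtype.ext (Subtype.ext h)
    have hya := hy.adj_sub
    have hza := hz.adj_sub
    refine ⟨_, ⟨y, (SimpleGraph.Walk.mem_verts_toSubgraph _).1 hy.snd_mem, rfl⟩, _,
      ⟨z, (SimpleGraph.Walk.mem_verts_toSubgraph _).1 hz.snd_mem, rfl⟩,
      fun h => hyz (inj _ _ h), fun h => hya.1 (inj _ _ h).symm,
      fun h => hza.1 (inj _ _ h).symm, ?_, ?_⟩
    · exact congrArg Subtype.val hya.2
    · exact congrArg Subtype.val hza.2
  have hcore := fun k hk => core hn P hP hd ⟨_, a, c.start_mem_support, rfl⟩ (k := k) hk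
  let T : Finset El := (Finset.range (2 * n)).image (fun k => te n ((WW n).take (k + 1)) [])
  have hT : T.card = 2 * n := by
    rw [Finset.card_image_of_injOn, Finset.card_range]
    intro k hk k' hk' h
    rw [Finset.mem_coe, Finset.mem_range] at hk hk'
    exact te_inj hk hk' h
  have hsub : T ⊆ (c.support.map (fun v : {x : Sn n // ∃ y : Sn n, x * y ≠ y * x} => v.1.1)).toFinset := by
    intro x hx
    rw [Finset.mem_image] at hx
    obtain ⟨k, hk, rfl⟩ := hx
    rw [List.mem_toFinset, List.mem_map]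
    exact hcore k (Finset.mem_range.1 hk)
  have h2 := Finset.card_le_card hsub
  rw [hT] at h2
  have h3 := List.toFinset_card_le (c.support.map (fun v : {x : Sn n // ∃ y : Sn n, x * y ≠ y * x} => v.1.1))
  rw [List.length_map, SimpleGraph.Walk.length_support] at h3
  omega

theorem wo_mem {n : ℕ} (hn : 1 ≤ n) : ∀ s : List Al, s ≠ [] → wo n s ∈ Sn n := by
  intro s
  induction s with
  | nil => intro h; exact absurd rfl h
  | cons a s ih =>
    intro _
    have h1 : wo n [a] ∈ Sn n := Subsemigroup.subset_closure (Or.inl (Or.inl ⟨a, rfl⟩))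
    by_cases hs : s = []
    · rw [hs]
      exact h1
    · have := (Sn n).mul_mem h1 (ih hs)
      rwa [wo_mul_wo hn] at this

theorem e_mem (n : ℕ) : te n [] [] ∈ Sn n :=
  Subsemigroup.subset_closure (Or.inl (Or.inr rfl))

theorem k_mem (n : ℕ) (ε : Fin 3) : ko ([], ε) [] ∈ Sn n :=
  Subsemigroup.subset_closure (Or.inr ⟨ε, rfl⟩)

theorem te_mem {n : ℕ} (hn : 1 ≤ n) (k : ℕ) : te n ((WW n).take (k + 1)) [] ∈ Sn n := by
  have := (Sn n).mul_mem (wo_mem hn _ (take_ne (k := k) hn)) (e_mem n)
  rwa [wo_mul_te hn, List.append_nil] at this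

theorem ko_mem {n : ℕ} (hn : 1 ≤ n) (k : ℕ) (ε : Fin 3) :
    ko (rho n ((WW n).take (k + 1), ε)) [] ∈ Sn n := by
  have := (Sn n).mul_mem (wo_mem hn _ (take_ne (k := k) hn)) (k_mem n ε)
  rw [mul_ko] at this
  simp only [wo, List.append_nil] at this
  exact this

/-- The vertex `x_k e`. -/
noncomputable def vt {n : ℕ} (hn : 1 ≤ n) (k : ℕ) :
    {x : Sn n // ∃ y : Sn n, x * y ≠ y * x} :=
  ⟨⟨te n ((WW n).take (k + 1)) [], te_mem hn k⟩, ⟨te n [] [], e_mem n⟩, by
    intro h
    have h' := congrArg Subtype.val h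
    have := com_te_te (List.take_prefix _ _).isInfix List.nil_prefix List.nil_infix
      List.nil_prefix h'
    exact take_ne hn this.1⟩

theorem rho_ne {n : ℕ} (hn : 1 ≤ n) (k : ℕ) (ε : Fin 3) :
    (rho n ((WW n).take (k + 1), ε)).1 ≠ [] := by
  rw [rho_pre (List.take_prefix _ _) (take_ne hn)]
  exact take_ne hn

/-- The constant vertices. -/
noncomputable def vk {n : ℕ} (hn : 1 ≤ n) (k : ℕ) (ε : Fin 3) :
    {x : Sn n // ∃ y : Sn n, x * y ≠ y * x} :=
  ⟨⟨ko (rho n ((WW n).take (k + 1), ε)) [], ko_mem hn k ε⟩, ⟨ko ([], 0) [], k_mem n 0⟩, by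
    intro h
    have h' := congrArg Subtype.val h
    have := ko_inj (com_ko_ko h')
    apply rho_ne hn k ε
    rw [this.1]⟩

theorem vt_ne_vk {n : ℕ} (hn : 1 ≤ n) (k k' : ℕ) (ε : Fin 3) : vt hn k ≠ vk hn k' ε := by
  intro h
  have h' : te n ((WW n).take (k + 1)) [] = ko (rho n ((WW n).take (k' + 1), ε)) [] :=
    congrArg (fun v => ((Subtype.val v : Sn n) : El)) h
  have h0 := congrFun (congrArg El.l h') ([], 0)
  have h2 := congrFun (congrArg El.l h') ([], 2)
  rw [te_l_two] at h2
  simp only [te, ko, List.append_nil] at h0 h2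
  rw [if_pos List.nil_prefix, ← h2, rho_pre (List.take_prefix _ _) (take_ne hn),
    rho_pre (List.take_prefix _ _) (take_ne hn)] at h0
  have h3 : (0 : Fin 3) = 2 := congrArg Prod.snd h0
  exact absurd h3 (by decide)

theorem adj {n : ℕ} (hn : 1 ≤ n) (k k' : ℕ) (ε : Fin 3)
    (h : rho n ((WW n).take (k' + 1), ε) = rho n ((WW n).take (k + 1), ε)) :
    (commGraph (Sn n)).Adj (vt hn k) (vk hn k' ε) := by
  refine ⟨vt_ne_vk hn k k' ε, ?_⟩
  apply Subtype.ext
  change te n ((WW n).take (k + 1)) [] * ko (rho n ((WW n).take (k' + 1), ε)) [] =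
    ko (rho n ((WW n).take (k' + 1), ε)) [] * te n ((WW n).take (k + 1)) []
  rw [h, mul_ko, ko_mul]
  have hp : (WW n).take (k + 1) <+: WW n := List.take_prefix _ _
  have h1 : ([] ++ (rho n ((WW n).take (k + 1), ε)).1) <+: WW n :=
    (rho_pref hn [] _).2 hp
  have h2 : (rho n ((WW n).take (k + 1), ε)).2 = ε := rho_snd (v := []) hp
  simp only [te]
  rw [if_pos h1, h2, be_of_mem List.nil_infix]

theorem rho_shift {n : ℕ} (hn : 1 ≤ n) {k : ℕ} (hk : k + 1 < 2 * n) :
    rho n ((WW n).take (k + 1), if k % 2 = 0 then 1 else 0) =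
      rho n ((WW n).take (k + 1 + 1), if k % 2 = 0 then 1 else 0) := by
  rw [rho_pre (List.take_prefix _ _) (take_ne hn), rho_pre (List.take_prefix _ _) (take_ne hn),
    take_len (by omega), take_len hk]
  have : ri n (if k % 2 = 0 then 1 else 0) k = ri n (if k % 2 = 0 then 1 else 0) (k + 1) := by
    rcases Nat.mod_two_eq_zero_or_one k with h0 | h0
    · rw [if_pos h0]
      simp only [ri, Fin.one_eq_zero_iff, if_true]
      rw [if_neg (by omega), if_neg (by omega)]
      omega
    · rw [if_neg (by omega)]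
      simp only [ri, if_true]
      have : (k + 1) % 2 = 0 := by omega
      rw [h0, this, add_zero]
  rw [this]

theorem rho_last {n : ℕ} (hn : 1 ≤ n) :
    rho n ((WW n).take (0 + 1), 0) = rho n ((WW n).take (2 * n - 1 + 1), 0) := by
  rw [rho_pre (List.take_prefix _ _) (take_ne hn), rho_pre (List.take_prefix _ _) (take_ne hn),
    take_len (by omega), take_len (by omega)]
  have : ri n 0 0 = ri n 0 (2 * n - 1) := by
    simp only [ri, if_true]
    have : (2 * n - 1) % 2 = 1 := by omega
    rw [this, show 2 * n - 1 + 1 = 2 * n by omega, Nat.mod_self]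
    simp
  rw [this]

theorem not_acyclic {n : ℕ} (hn : 2 ≤ n) : ¬ (commGraph (Sn n)).IsAcyclic := by
  intro hac
  have hn1 : 1 ≤ n := by omega
  have hb := SimpleGraph.isAcyclic_iff_forall_adj_isBridge.1 hac (adj hn1 0 0 0 rfl)
  rw [SimpleGraph.isBridge_iff] at hb
  apply hb
  have hvt : ∀ k, k < 2 * n → k ≠ 0 → vt hn1 k ≠ vt hn1 0 := by
    intro k hk hk0 h
    have h' : te n ((WW n).take (k + 1)) [] = te n ((WW n).take (0 + 1)) [] :=
      congrArg (fun v : {x : Sn n // ∃ y : Sn n, x * y ≠ y * x} => v.1.1) h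
    exact hk0 (te_inj hk (by omega) h')
  have hedge : ∀ k k' ε, (commGraph (Sn n)).Adj (vt hn1 k) (vk hn1 k' ε) →
      (vt hn1 k ≠ vt hn1 0 ∨ vk hn1 k' ε ≠ vk hn1 0 0) →
      ((commGraph (Sn n)).deleteEdges {s(vt hn1 0, vk hn1 0 0)}).Adj (vt hn1 k)
        (vk hn1 k' ε) := by
    intro k k' ε h1 h2
    rw [SimpleGraph.deleteEdges_adj]
    refine ⟨h1, ?_⟩
    rw [Set.mem_singleton_iff, Sym2.eq_iff]
    rintro (⟨h3, h4⟩ | ⟨h3, -⟩)
    · rcases h2 with h2 | h2
      · exact h2 h3
      · exact h2 h4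
    · exact vt_ne_vk hn1 _ _ _ h3
  have hreach : ∀ k, k < 2 * n → ((commGraph (Sn n)).deleteEdges
      {s(vt hn1 0, vk hn1 0 0)}).Reachable (vt hn1 0) (vt hn1 k) := by
    intro k
    induction k with
    | zero => intro _; exact SimpleGraph.Reachable.refl _
    | succ k ih =>
      intro hk
      refine (ih (by omega)).trans ?_
      have e1 := hedge k k (if k % 2 = 0 then 1 else 0) (adj hn1 k k _ rfl) (by
        rcases Nat.eq_zero_or_pos k with h0 | h0
        · right
          subst h0
          intro h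
          have h' : ko (rho n ((WW n).take (0 + 1), 1)) [] =
              ko (rho n ((WW n).take (0 + 1), 0)) [] :=
            congrArg (fun v : {x : Sn n // ∃ y : Sn n, x * y ≠ y * x} => v.1.1) h
          have h2 := (ko_inj h').1
          rw [rho_pre (List.take_prefix _ _) (take_ne hn1),
            rho_pre (List.take_prefix _ _) (take_ne hn1)] at h2
          have h3 : (1 : Fin 3) = 0 := congrArg Prod.snd h2
          exact absurd h3 (by decide)
        · left
          exact hvt k (by omega) (by omega))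
      have e2 := hedge (k + 1) k (if k % 2 = 0 then 1 else 0)
        (adj hn1 (k + 1) k _ (rho_shift hn1 hk)) (Or.inl (hvt (k + 1) hk (by omega)))
      exact e1.reachable.trans e2.reachable.symm
  have e3 := hedge (2 * n - 1) 0 0 (adj hn1 _ _ _ (rho_last hn1))
    (Or.inl (hvt _ (by omega) (by omega)))
  exact (hreach (2 * n - 1) (by omega)).trans e3.reachable

/-- The generators, as elements of the semigroup. -/
noncomputable def gm (n : ℕ) : Al ⊕ Unit ⊕ Fin 3 → Sn n
  | Sum.inl a => ⟨wo n [a], Subsemigroup.subset_closure (Or.inl (Or.inl ⟨a, rfl⟩))⟩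
  | Sum.inr (Sum.inl _) => ⟨te n [] [], e_mem n⟩
  | Sum.inr (Sum.inr ε) => ⟨ko ([], ε) [], k_mem n ε⟩

theorem gm_range (n : ℕ) : Set.range (gm n) = (Subtype.val ⁻¹' gens n : Set (Sn n)) := by
  ext x
  constructor
  · rintro ⟨a | _ | ε, rfl⟩
    · exact Or.inl (Or.inl ⟨a, rfl⟩)
    · exact Or.inl (Or.inr rfl)
    · exact Or.inr ⟨ε, rfl⟩
  · rintro ((⟨a, ha⟩ | h) | ⟨ε, hε⟩)
    · exact ⟨Sum.inl a, Subtype.ext ha⟩
    · exact ⟨Sum.inr (Sum.inl ()), Subtype.ext (Eq.symm h)⟩
    · exact ⟨Sum.inr (Sum.inr ε), Subtype.ext hε⟩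

theorem rank_le (n : ℕ) : RankLE (commGraph (Sn n)) 13 := by
  classical
  refine ⟨Sn n, inferInstance, Finset.univ.image (gm n), ?_, ?_, ⟨SimpleGraph.Iso.refl⟩⟩
  · refine Finset.card_image_le.trans (le_of_eq ?_)
    rfl
  · rw [Finset.coe_image, Finset.coe_univ, Set.image_univ, gm_range]
    exact Subsemigroup.closure_closure_coe_preimage

/-- **Bounded rank and unbounded girth.** There are finite star-free graphs, each containing a
cycle, which are commuting graphs of semigroups with at most 13 generators, and whose girth is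
as large as one likes. -/
theorem result : ∃ C : ℕ, ∀ m : ℕ, ∃ (V : Type) (_ : Finite V) (Γ : SimpleGraph V),
    (∀ v, ∃ w, w ≠ v ∧ ¬ Γ.Adj v w) ∧ ¬ Γ.IsAcyclic ∧ m ≤ Γ.girth ∧ RankLE Γ C := by
  refine ⟨13, fun m => ?_⟩
  have hn : 1 ≤ m + 2 := by omega
  have hfin : Finite (Sn (m + 2)) := by
    apply Set.Finite.to_subtype
    exact (nf_finite (m + 2)).subset (fun x hx => nf_of_form (form_of_mem hn hx))
  refine ⟨_, inferInstance, commGraph (Sn (m + 2)), ?_, not_acyclic (by omega), ?_, rank_le _⟩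
  · rintro ⟨x, y, hxy⟩
    refine ⟨⟨y, x, fun h => hxy h.symm⟩, ?_, ?_⟩
    · intro h
      have : y = x := congrArg Subtype.val h
      exact hxy (by rw [this])
    · rintro ⟨-, h⟩
      exact hxy h
  · obtain ⟨a, c, hc, hg⟩ := SimpleGraph.exists_girth_eq_length.2
      (not_acyclic (n := m + 2) (by omega))
    have := cycle_length hn c hc
    rw [hg]
    omega

end Graph
end Pool.Agent.Results.MP_eff4ce_al.BoundedRankUnboundedGirth
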